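import Pool.Agent.helper92.PI.A3

/-! # PI project (MP_93b131_co), module D5: random types of the left vertices -/

set_option autoImplicit false

namespace Pool.Agent.helper87.PI

open Finset

section block

variable {X Y : Type} [Fintype X] [Fintype Y] [DecidableEq X] [DecidableEq Y]

theorem D5_sum (E : Finset (X × Y)) (y : Y) (g : X → ℝ) :
    ∑ e ∈ E.filter (fun e => e.2 = y), g e.1 =
      ∑ x ∈ univ.filter (fun x => (x, y) ∈ E), g x := by
  apply Finset.sum_nbij' (fun e => e.1) (fun x => (x, y))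
  · intro e he
    rw [Finset.mem_filter] at he
    obtain ⟨h1, h2⟩ := he
    simp only [Finset.mem_filter, Finset.mem_univ, true_and]
    rw [← h2]
    exact h1
  · intro x hx
    simp only [Finset.mem_filter, Finset.mem_univ, true_and] at hx
    simp [hx]
  · intro e he
    rw [Finset.mem_filter] at he
    obtain ⟨h1, h2⟩ := he
    rw [← h2]
  · intro x hx
    rfl
  · intro e he
    rfl

theorem D5_ms (E : Finset (X × Y)) (y : Y) :
    ms E y = ∑ x ∈ univ.filter (fun x => (x, y) ∈ E), (1 : ℝ) / (dX E x : ℝ) :=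
  D5_sum E y (fun x => (1 : ℝ) / (dX E x : ℝ))

theorem D5_dY (E : Finset (X × Y)) (y : Y) :
    dY E y = (univ.filter (fun x => (x, y) ∈ E)).card := by
  have h := D5_sum E y (fun _ => (1 : ℝ))
  rw [Finset.sum_const, Finset.sum_const, nsmul_eq_mul, nsmul_eq_mul, mul_one, mul_one] at h
  exact_mod_cast h

theorem D5_dX (E : Finset (X × Y)) (x : X) :
    dX E x = (univ.filter (fun y => (x, y) ∈ E)).card := by
  unfold dX
  apply Finset.card_nbij' (fun e => e.2) (fun y => (x, y))
  · intro e he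
    rw [Finset.mem_coe, Finset.mem_filter] at he
    obtain ⟨h1, h2⟩ := he
    simp only [Finset.coe_filter, Finset.mem_univ, true_and]
    show (x, e.2) ∈ E
    rw [← h2]
    exact h1
  · intro y hy
    simp only [Finset.coe_filter, Finset.mem_univ, true_and] at hy
    have hy' : (x, y) ∈ E := hy
    simp [hy']
  · intro e he
    rw [Finset.mem_coe, Finset.mem_filter] at he
    obtain ⟨h1, h2⟩ := he
    rw [← h2]
  · intro y hy
    rfl

theorem D5_pos (E : Finset (X × Y)) (x : X) (y : Y) (h : (x, y) ∈ E) : dX E x ≠ 0 := by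
  rw [D5_dX]
  exact Finset.card_ne_zero.2 ⟨y, by simp [h]⟩

/-- random types of the left vertices -/
theorem types (E : Finset (X × Y)) (Δ θ K r : ℕ) (Λ : ℝ) (hθ : 0 < θ) (hr : 0 < r) (hK : 0 < K)
    (hx : ∀ x, dX E x = 0 ∨ (θ ≤ dX E x ∧ dX E x ≤ Δ))
    (hy : ∀ y, dY E y = 0 ∨ (K ≤ dY E y ∧ dY E y ≤ 2 * K)) (hyΔ : ∀ y, dY E y ≤ Δ)
    (hrΔ : r ≤ Δ) (hΛ0 : 0 < Λ) (h : 16 * Λ * r * Δ ≤ (K : ℝ) * θ)
    (hΛ : 8 * ((Δ : ℝ) ^ 3 + 1) ≤ Real.exp Λ) :
    ∃ τ : X → Fin r, ∀ (j : Fin r) (y : Y), dY E y ≠ 0 →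
      (K : ℝ) / (2 * r * Δ) ≤ ms (E.filter (fun e => τ e.1 = j)) y ∧
      ms (E.filter (fun e => τ e.1 = j)) y ≤ 3 * (K : ℝ) / (r * θ) := by
  classical
  have hθR : (0 : ℝ) < θ := by exact_mod_cast hθ
  have hrR : (0 : ℝ) < r := by exact_mod_cast hr
  have hr1 : (1 : ℝ) ≤ r := by exact_mod_cast hr
  have hKR : (0 : ℝ) < K := by exact_mod_cast hK
  have hΔ0 : 0 < Δ := lt_of_lt_of_le hr hrΔ
  have hΔR : (0 : ℝ) < Δ := by exact_mod_cast hΔ0
  have hrΔR : (r : ℝ) ≤ Δ := by exact_mod_cast hrΔ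
  have hdeg : ∀ x y, (x, y) ∈ E → θ ≤ dX E x ∧ dX E x ≤ Δ := by
    intro x y hxy
    rcases hx x with h1 | h1
    · exact absurd h1 (D5_pos E x y hxy)
    · exact h1
  -- bounds on `ms`
  have hmslo : ∀ y, (dY E y : ℝ) / Δ ≤ ms E y := by
    intro y
    rw [D5_ms, D5_dY, div_eq_mul_one_div, ← nsmul_eq_mul, ← Finset.sum_const]
    apply Finset.sum_le_sum
    intro x hx
    simp only [Finset.mem_filter, Finset.mem_univ, true_and] at hx
    obtain ⟨h1, h2⟩ := hdeg x y hx
    have h3 : (0 : ℝ) < dX E x := by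
      have : 0 < dX E x := lt_of_lt_of_le hθ h1
      exact_mod_cast this
    apply one_div_le_one_div_of_le h3
    exact_mod_cast h2
  have hmshi : ∀ y, ms E y ≤ (dY E y : ℝ) / θ := by
    intro y
    rw [D5_ms, D5_dY, div_eq_mul_one_div, ← nsmul_eq_mul, ← Finset.sum_const]
    apply Finset.sum_le_sum
    intro x hx
    simp only [Finset.mem_filter, Finset.mem_univ, true_and] at hx
    obtain ⟨h1, h2⟩ := hdeg x y hx
    apply one_div_le_one_div_of_le hθR
    exact_mod_cast h1
  have hmsK : ∀ y, dY E y ≠ 0 → (K : ℝ) / Δ ≤ ms E y := by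
    intro y hy0
    rcases hy y with h1 | h1
    · exact absurd h1 hy0
    · refine le_trans ?_ (hmslo y)
      apply div_le_div_of_nonneg_right _ hΔR.le
      exact_mod_cast h1.1
  have hmsK2 : ∀ y, dY E y ≠ 0 → ms E y ≤ 2 * K / θ := by
    intro y hy0
    rcases hy y with h1 | h1
    · exact absurd h1 hy0
    · refine le_trans (hmshi y) ?_
      apply div_le_div_of_nonneg_right _ hθR.le
      exact_mod_cast h1.2
  have hms16 : ∀ y, dY E y ≠ 0 → 16 * Λ * r ≤ θ * ms E y := by
    intro y hy0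
    have h1 := hmsK y hy0
    rw [div_le_iff₀ hΔR] at h1
    have h2 : 16 * Λ * r * Δ ≤ (θ * ms E y) * Δ := by
      calc 16 * Λ * r * Δ ≤ (K : ℝ) * θ := h
        _ ≤ (ms E y * Δ) * θ := mul_le_mul_of_nonneg_right h1 hθR.le
        _ = _ := by ring
    exact le_of_mul_le_mul_right h2 hΔR
  set Z : Y × Fin r → X → Fin r → ℝ := fun j x a =>
    (1 / (dX E x : ℝ)) * ((if a = j.2 then 1 else 0) - 1 / (r : ℝ)) with hZ
  have hind : ∀ (a j : Fin r), |(if a = j then (1 : ℝ) else 0) - 1 / (r : ℝ)| ≤ 1 := by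
    intro a j
    have h1 : (0 : ℝ) < 1 / r := by positivity
    have h2 : 1 / (r : ℝ) ≤ 1 := by
      rw [div_le_one hrR]; exact hr1
    rw [abs_le]
    split_ifs
    · constructor <;> linarith
    · constructor <;> linarith
  have hsumind : ∀ j : Fin r, ∑ a : Fin r, ((if a = j then (1 : ℝ) else 0) - 1 / (r : ℝ)) = 0 := by
    intro j
    rw [Finset.sum_sub_distrib, Finset.sum_ite_eq' univ j, Finset.sum_const]
    simp
    field_simp
    simp
  have hsq : ∀ j : Fin r, ∑ a : Fin r, ((if a = j then (1 : ℝ) else 0) - 1 / (r : ℝ)) ^ 2 ≤ 1 := by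
    intro j
    have h1 : ∀ a : Fin r, ((if a = j then (1 : ℝ) else 0) - 1 / (r : ℝ)) ^ 2 =
        (1 - 2 / r) * (if a = j then (1 : ℝ) else 0) + (1 / (r : ℝ)) ^ 2 := by
      intro a
      split_ifs <;> ring
    simp_rw [h1]
    rw [Finset.sum_add_distrib, ← Finset.mul_sum, Finset.sum_ite_eq' univ j, Finset.sum_const]
    simp only [Finset.mem_univ, if_true, Finset.card_univ, Fintype.card_fin, nsmul_eq_mul]
    have h2 : (r : ℝ) * (1 / (r : ℝ)) ^ 2 = 1 / r := by field_simp
    rw [h2]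
    have h3 : (0 : ℝ) < 1 / r := by positivity
    have h4 : (2 : ℝ) / r = 2 * (1 / r) := by ring
    rw [h4]
    linarith
  obtain ⟨ω, hω⟩ := master (ι := X) (α := Fin r) (J := Y × Fin r)
    (fun _ _ => 1 / (r : ℝ)) (fun _ _ => by positivity)
    (fun _ => by
      rw [Finset.sum_const, Finset.card_univ, Fintype.card_fin, nsmul_eq_mul]
      field_simp)
    (fun j => univ.filter (fun x => (x, j.1) ∈ E)) (Δ * r) Δ
    (fun j => by rw [← D5_dY]; exact hyΔ _)
    (fun x => by
      have h1 : (univ.filter (fun j : Y × Fin r => x ∈ univ.filter (fun x => (x, j.1) ∈ E))) =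
          (univ.filter (fun y => (x, y) ∈ E)) ×ˢ (univ : Finset (Fin r)) := by
        ext j
        simp
      rw [h1, Finset.card_product, ← D5_dX, Finset.card_univ, Fintype.card_fin]
      apply Nat.mul_le_mul_right
      rcases hx x with h2 | h2
      · rw [h2]; exact Nat.zero_le _
      · exact h2.2)
    Z
    (fun j x _ => by
      rw [hZ]
      simp only
      rw [← Finset.mul_sum, ← Finset.mul_sum, hsumind, mul_zero, mul_zero])
    (fun _ => 1 / (θ : ℝ)) (fun j => ms E j.1 / (θ * r))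
    (fun j => if dY E j.1 = 0 then 2 * Λ * (1 / (θ : ℝ)) else ms E j.1 / (2 * r)) Λ
    (fun _ => by positivity)
    (fun j x hxD a => by
      simp only [Finset.mem_filter, Finset.mem_univ, true_and] at hxD
      obtain ⟨h1, h2⟩ := hdeg x j.1 hxD
      rw [hZ]
      simp only
      rw [abs_mul, abs_of_nonneg (by positivity : (0 : ℝ) ≤ 1 / (dX E x : ℝ))]
      have h3 : 1 / (dX E x : ℝ) ≤ 1 / θ :=
        one_div_le_one_div_of_le hθR (by exact_mod_cast h1)
      calc _ ≤ (1 / (θ : ℝ)) * 1 := mul_le_mul h3 (hind a j.2) (abs_nonneg _) (by positivity)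
        _ = _ := mul_one _)
    (fun j => by
      rw [D5_ms, Finset.sum_div]
      apply Finset.sum_le_sum
      intro x hxD
      simp only [Finset.mem_filter, Finset.mem_univ, true_and] at hxD
      obtain ⟨h1, h2⟩ := hdeg x j.1 hxD
      have h3 : (0 : ℝ) < dX E x := by
        have : 0 < dX E x := lt_of_lt_of_le hθ h1
        exact_mod_cast this
      have h4 : (θ : ℝ) ≤ dX E x := by exact_mod_cast h1
      have h5 : ∑ a : Fin r, 1 / (r : ℝ) * Z j x a ^ 2 =
          (1 / (r : ℝ)) * (1 / (dX E x : ℝ)) ^ 2 *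
            ∑ a : Fin r, ((if a = j.2 then (1 : ℝ) else 0) - 1 / (r : ℝ)) ^ 2 := by
        rw [Finset.mul_sum]
        apply Finset.sum_congr rfl
        intro a _
        rw [hZ]
        ring
      rw [h5]
      calc _ ≤ (1 / (r : ℝ)) * (1 / (dX E x : ℝ)) ^ 2 * 1 :=
            mul_le_mul_of_nonneg_left (hsq j.2) (by positivity)
        _ = (1 / (dX E x : ℝ)) / (dX E x * r) := by field_simp
        _ ≤ (1 / (dX E x : ℝ)) / (θ * r) := by
            apply div_le_div_of_nonneg_left (by positivity) (by positivity)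
            exact mul_le_mul_of_nonneg_right h4 hrR.le)
    (fun j => by
      by_cases h0 : dY E j.1 = 0
      · rw [if_pos h0]
        have h1 : ms E j.1 = 0 := by
          rw [D5_ms]
          rw [D5_dY, Finset.card_eq_zero] at h0
          rw [h0, Finset.sum_empty]
        rw [h1]
        simp
        positivity
      · rw [if_neg h0]
        have h1 := hms16 j.1 h0
        have h2 : 0 ≤ ms E j.1 := le_trans (by positivity) (hmsK j.1 h0)
        have h3 : ms E j.1 / (2 * r) * (ms E j.1 / (2 * r)) - 4 * Λ * (ms E j.1 / (θ * r)) =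
            ms E j.1 / (4 * r ^ 2 * θ) * (θ * ms E j.1 - 16 * Λ * r) := by
          field_simp
          ring
        have h4 : 0 ≤ ms E j.1 / (4 * r ^ 2 * θ) * (θ * ms E j.1 - 16 * Λ * r) :=
          mul_nonneg (by positivity) (by linarith)
        rw [sq]
        linarith)
    (fun j => by
      by_cases h0 : dY E j.1 = 0
      · rw [if_pos h0]
      · rw [if_neg h0]
        have h1 := hms16 j.1 h0
        rw [le_div_iff₀ (by positivity)]
        have h2 : 2 * Λ * (1 / (θ : ℝ)) * (2 * r) = (4 * Λ * r) / θ := by ring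
        rw [h2, div_le_iff₀ hθR]
        have h3 : 0 ≤ Λ * r := by positivity
        linarith)
    (by
      refine le_trans ?_ hΛ
      have h1 : (r : ℝ) * Δ ≤ Δ * Δ := mul_le_mul_of_nonneg_right hrΔR hΔR.le
      have h2 : (Δ : ℝ) * (r * Δ) ≤ Δ * (Δ * Δ) := mul_le_mul_of_nonneg_left h1 hΔR.le
      push_cast
      nlinarith [h2])
  refine ⟨ω, fun j y hy0 => ?_⟩
  have h1 := hω (y, j)
  rw [if_neg hy0] at h1
  simp only at h1
  -- the filtered sum
  have h2 : ms (E.filter (fun e => ω e.1 = j)) y =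
      ∑ x ∈ univ.filter (fun x => (x, y) ∈ E), (1 / (dX E x : ℝ)) * (if ω x = j then 1 else 0) := by
    rw [D5_ms]
    have h3 : (univ.filter (fun x => (x, y) ∈ E.filter (fun e => ω e.1 = j))) =
        (univ.filter (fun x => (x, y) ∈ E)).filter (fun x => ω x = j) := by
      ext x
      simp
    rw [h3, Finset.sum_filter]
    apply Finset.sum_congr rfl
    intro x _
    by_cases h4 : ω x = j
    · rw [if_pos h4, if_pos h4, mul_one]
      congr 2
      unfold dX
      congr 1
      ext e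
      simp only [Finset.mem_filter]
      constructor
      · rintro ⟨⟨h5, -⟩, h6⟩
        exact ⟨h5, h6⟩
      · rintro ⟨h5, h6⟩
        exact ⟨⟨h5, by rw [h6]; exact h4⟩, h6⟩
    · rw [if_neg h4, if_neg h4, mul_zero]
  have h3 : ∑ x ∈ univ.filter (fun x => (x, y) ∈ E), Z (y, j) x (ω x) =
      ms (E.filter (fun e => ω e.1 = j)) y - ms E y / r := by
    rw [h2, D5_ms E y, Finset.sum_div, ← Finset.sum_sub_distrib]
    apply Finset.sum_congr rfl
    intro x _
    rw [hZ]
    simp only
    ring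
  rw [h3, abs_le] at h1
  obtain ⟨h4, h5⟩ := h1
  have h6 := hmsK y hy0
  have h7 := hmsK2 y hy0
  have h8 : ms E y / r = 2 * (ms E y / (2 * r)) := by field_simp
  constructor
  · calc (K : ℝ) / (2 * r * Δ) = (K / Δ) / (2 * r) := by field_simp
      _ ≤ ms E y / (2 * r) := div_le_div_of_nonneg_right h6 (by positivity)
      _ ≤ _ := by linarith
  · calc _ ≤ 3 * (ms E y / (2 * r)) := by linarith
      _ ≤ 3 * ((2 * K / θ) / (2 * r)) := by
          apply mul_le_mul_of_nonneg_left _ (by norm_num)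
          exact div_le_div_of_nonneg_right h7 (by positivity)
      _ = _ := by field_simp

end block

end Pool.Agent.helper87.PI
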