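import Pool.Agent.helper71.PI.A1
import Pool.Agent.helper71.PI.A2

/-! # PI project (MP_93b131_co), module A3: local lemma plus tail bound -/

set_option autoImplicit false

namespace Pool.Agent.helper87.PI

open Finset

/-- local lemma + tail bound -/
theorem master {ι α J : Type} [Fintype ι] [DecidableEq ι] [Fintype α] [Fintype J] [DecidableEq J]
    (w : ι → α → ℝ) (hw0 : ∀ i a, 0 ≤ w i a) (hw1 : ∀ i, ∑ a, w i a = 1)
    (D : J → Finset ι) (d₁ d₂ : ℕ) (hD2 : ∀ j, (D j).card ≤ d₂)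
    (hD1 : ∀ i, (univ.filter (fun j => i ∈ D j)).card ≤ d₁)
    (Z : J → ι → α → ℝ) (hZ0 : ∀ j, ∀ i ∈ D j, ∑ a, w i a * Z j i a = 0)
    (b V f : J → ℝ) (Λ : ℝ) (hb0 : ∀ j, 0 < b j) (hb : ∀ j, ∀ i ∈ D j, ∀ a, |Z j i a| ≤ b j)
    (hV : ∀ j, ∑ i ∈ D j, ∑ a, w i a * Z j i a ^ 2 ≤ V j)
    (hf1 : ∀ j, 4 * Λ * V j ≤ f j ^ 2) (hf2 : ∀ j, 2 * Λ * b j ≤ f j)
    (hΛ : 8 * ((d₁ : ℝ) * d₂ + 1) ≤ Real.exp Λ) :
    ∃ ω : ι → α, ∀ j, |∑ i ∈ D j, Z j i (ω i)| ≤ f j := by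
  have hΛ0 : 0 < Λ := by
    by_contra h
    push Not at h
    have h1 : Real.exp Λ ≤ 1 := Real.exp_le_one_iff.2 h
    have h2 : (0 : ℝ) ≤ (d₁ : ℝ) * d₂ := by positivity
    linarith
  obtain ⟨ω, hω⟩ := lll w hw0 hw1 D (fun j => {ω : ι → α | f j < |∑ i ∈ D j, Z j i (ω i)|})
    (by
      intro j ω ω' h
      have h1 : ∑ i ∈ D j, Z j i (ω i) = ∑ i ∈ D j, Z j i (ω' i) :=
        Finset.sum_congr rfl (fun i hi => by rw [h i hi])
      simp only [Set.mem_setOf_eq, h1])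
    (d₁ * d₂)
    (by
      intro j
      have h1 : (univ.filter (fun j' => j' ≠ j ∧ ¬ Disjoint (D j) (D j'))) ⊆
          (D j).biUnion (fun i => univ.filter (fun j' => i ∈ D j')) := by
        intro j' hj'
        rw [Finset.mem_filter] at hj'
        obtain ⟨-, -, h2⟩ := hj'
        rw [Finset.not_disjoint_iff] at h2
        obtain ⟨i, hi, hi'⟩ := h2
        rw [Finset.mem_biUnion]
        exact ⟨i, hi, by simp [hi']⟩
      calc _ ≤ _ := Finset.card_le_card h1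
        _ ≤ (D j).card * d₁ := Finset.card_biUnion_le_card_mul _ _ _ (fun i _ => hD1 i)
        _ ≤ d₁ * d₂ := by rw [mul_comm]; exact Nat.mul_le_mul_left _ (hD2 j))
    (2 * Real.exp (-Λ))
    (fun j => tail w hw0 hw1 (D j) (Z j) (hZ0 j) (b j) (V j) (f j) Λ (hb0 j) (hb j) (hV j) hΛ0
      (hf1 j) (hf2 j))
    (by
      push_cast
      have h1 : Real.exp Λ * Real.exp (-Λ) = 1 := by
        rw [← Real.exp_add, add_neg_cancel, Real.exp_zero]
      have h2 : 8 * ((d₁ : ℝ) * d₂ + 1) * Real.exp (-Λ) ≤ Real.exp Λ * Real.exp (-Λ) :=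
        mul_le_mul_of_nonneg_right hΛ (Real.exp_pos _).le
      rw [h1] at h2
      linarith)
  exact ⟨ω, fun j => not_lt.1 (hω j)⟩

end Pool.Agent.helper87.PI
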