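import Pool.Agent.helper9.PI.C4
import Pool.Agent.helper29.PI.C5
import Pool.Agent.helper29.PI.C6

/-! # PI project (MP_93b131_co), module C7: the block lemma, every left vertex has edges -/

set_option autoImplicit false

namespace Pool.Agent.helper87.PI

open Finset

section block

variable {X Y : Type} [Fintype X] [Fintype Y] [DecidableEq X] [DecidableEq Y]

theorem C7_sum (E : Finset (X × Y)) (y : Y) (g : X → ℝ) :
    ∑ e ∈ E.filter (fun e => e.2 = y), g e.1 =
      ∑ x ∈ univ.filter (fun x => (x, y) ∈ E), g x := by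
  apply Finset.sum_nbij' (fun e => e.1) (fun x => (x, y))
  · intro e he
    rw [Finset.mem_filter] at he
    obtain ⟨h1, h2⟩ := he
    simp only [Finset.mem_filter, Finset.mem_univ, true_and]
    rw [← h2]
    exact h1
  · intro x hx
    simp only [Finset.mem_filter, Finset.mem_univ, true_and] at hx
    simp [hx]
  · intro e he
    rw [Finset.mem_filter] at he
    obtain ⟨h1, h2⟩ := he
    rw [← h2]
  · intro x hx
    rfl
  · intro e he
    rfl

theorem C7_ms (E : Finset (X × Y)) (y : Y) :
    ms E y = ∑ x ∈ univ.filter (fun x => (x, y) ∈ E), (1 : ℝ) / (dX E x : ℝ) :=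
  C7_sum E y (fun x => (1 : ℝ) / (dX E x : ℝ))

theorem C7_dY (E : Finset (X × Y)) (y : Y) :
    dY E y = (univ.filter (fun x => (x, y) ∈ E)).card := by
  have h := C7_sum E y (fun _ => (1 : ℝ))
  rw [Finset.sum_const, Finset.sum_const, nsmul_eq_mul, nsmul_eq_mul, mul_one, mul_one] at h
  exact_mod_cast h

theorem C7_dX (E : Finset (X × Y)) (x : X) :
    dX E x = (univ.filter (fun y => (x, y) ∈ E)).card := by
  unfold dX
  apply Finset.card_nbij' (fun e => e.2) (fun y => (x, y))
  · intro e he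
    rw [Finset.mem_coe, Finset.mem_filter] at he
    obtain ⟨h1, h2⟩ := he
    simp only [Finset.coe_filter, Finset.mem_univ, true_and]
    show (x, e.2) ∈ E
    rw [← h2]
    exact h1
  · intro y hy
    simp only [Finset.coe_filter, Finset.mem_univ, true_and] at hy
    have hy' : (x, y) ∈ E := hy
    simp [hy']
  · intro e he
    rw [Finset.mem_coe, Finset.mem_filter] at he
    obtain ⟨h1, h2⟩ := he
    rw [← h2]
  · intro y hy
    rfl

theorem C7_posY (E : Finset (X × Y)) (x : X) (y : Y) (h : (x, y) ∈ E) : dY E y ≠ 0 := by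
  rw [C7_dY]
  exact Finset.card_ne_zero.2 ⟨x, by simp [h]⟩

/-- the share of `y` given to `x` -/
noncomputable def C7_phi (E : Finset (X × Y)) (y : Y) (x : X) : ℝ :=
  if (x, y) ∈ E then (1 / (dX E x : ℝ)) / ms E y else 0

/-- the block lemma, every left vertex has edges -/
theorem block0 (E : Finset (X × Y)) (Δ θ R q s : ℕ) (mlo Λ : ℝ)
    (hx : ∀ x, θ ≤ dX E x ∧ dX E x ≤ Δ) (hθ : 0 < θ) (hy : ∀ y, dY E y ≤ Δ) (hRΔ : R ≤ Δ)
    (hmlo : 0 < mlo)
    (hm : ∀ y, dY E y ≠ 0 → mlo ≤ ms E y ∧ 2 * (R : ℝ) * ms E y ≤ 1)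
    (hΛ0 : 0 < Λ) (hΛ : 8 * ((Δ : ℝ) ^ 3 + 1) ≤ Real.exp Λ)
    (hκ : 1000000 * Λ ≤ θ * mlo) (hq : 2 * (q : ℝ) ≤ θ * mlo) (hs : 1600 * Λ ≤ s) :
    ∃ (H : Finset (X × Y)) (t : Y → Option (Fin R)), H ⊆ E ∧ (∀ e ∈ H, t e.2 ≠ none) ∧
      (∀ (x : X) (j : Fin R), (H.filter (fun e => e.1 = x ∧ t e.2 = some j)).card = q) ∧
      ∀ y, dY H y = 0 ∨ (q - s ≤ dY H y ∧ dY H y ≤ q) := by
  classical
  have hθR : (0 : ℝ) < θ := by exact_mod_cast hθ
  have hκ0 : (0 : ℝ) < θ * mlo := by positivity
  set κ : ℝ := θ * mlo with hκdef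
  have hms0 : ∀ y, dY E y ≠ 0 → 0 < ms E y := fun y h => lt_of_lt_of_le hmlo (hm y h).1
  have hmsz : ∀ y, dY E y = 0 → ms E y = 0 := by
    intro y h0
    rw [C7_ms]
    rw [C7_dY, Finset.card_eq_zero] at h0
    rw [h0, Finset.sum_empty]
  have hmsnn : ∀ y, 0 ≤ ms E y := by
    intro y
    by_cases h : dY E y = 0
    · rw [hmsz y h]
    · exact (hms0 y h).le
  have hdxR : ∀ x, (0 : ℝ) < dX E x := by
    intro x
    have : 0 < dX E x := lt_of_lt_of_le hθ (hx x).1
    exact_mod_cast this
  have hφ0 : ∀ y x, 0 ≤ C7_phi E y x := by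
    intro y x
    unfold C7_phi
    split_ifs
    · exact div_nonneg (by positivity) (hmsnn y)
    · exact le_rfl
  have hφκ : ∀ y x, C7_phi E y x * κ ≤ 1 := by
    intro y x
    unfold C7_phi
    split_ifs with h
    · have h1 := hms0 y (C7_posY E x y h)
      have h2 := (hm y (C7_posY E x y h)).1
      have h3 : (θ : ℝ) ≤ dX E x := by exact_mod_cast (hx x).1
      have h4 : 1 / (dX E x : ℝ) / ms E y * κ = κ / (dX E x * ms E y) := by
        have := hdxR x
        field_simp
      rw [h4, div_le_one (mul_pos (hdxR x) h1)]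
      exact mul_le_mul h3 h2 hmlo.le (hdxR x).le
    · simp
  have hφE : ∀ x y, C7_phi E y x ≠ 0 → (x, y) ∈ E := by
    intro x y h
    by_contra h1
    exact h (by unfold C7_phi; rw [if_neg h1])
  have hφ1 : ∀ y, dY E y ≠ 0 → ∑ x, C7_phi E y x = 1 := by
    intro y h
    unfold C7_phi
    rw [← Finset.sum_filter, ← Finset.sum_div, ← C7_ms]
    exact div_self (hms0 y h).ne'
  have hpφ : ∀ x, ∑ y, ms E y * C7_phi E y x = 1 := by
    intro x
    have h1 : ∀ y, ms E y * C7_phi E y x = if (x, y) ∈ E then 1 / (dX E x : ℝ) else 0 := by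
      intro y
      unfold C7_phi
      split_ifs with h
      · have h2 := (hms0 y (C7_posY E x y h)).ne'
        field_simp
      · rw [mul_zero]
    simp_rw [h1]
    rw [← Finset.sum_filter, Finset.sum_const, ← C7_dX, nsmul_eq_mul, mul_one_div,
      div_self (hdxR x).ne']
  have hdx : ∀ x, (univ.filter (fun y => C7_phi E y x ≠ 0)).card ≤ Δ := by
    intro x
    refine le_trans (Finset.card_le_card ?_) ((C7_dX E x).symm.le.trans (hx x).2)
    intro y hy'
    simp only [Finset.mem_filter, Finset.mem_univ, true_and] at hy' ⊢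
    exact hφE x y hy'
  have hdy : ∀ y, (univ.filter (fun x => C7_phi E y x ≠ 0)).card ≤ Δ := by
    intro y
    refine le_trans (Finset.card_le_card ?_) ((C7_dY E y).symm.le.trans (hy y))
    intro x hx'
    simp only [Finset.mem_filter, Finset.mem_univ, true_and] at hx' ⊢
    exact hφE x y hx'
  have hΛκ : Λ ≤ κ := by linarith
  have hΛ2 : 8 * ((Δ : ℝ) ^ 2 + 1) ≤ Real.exp Λ := by
    refine le_trans ?_ hΛ
    have h1 : (Δ : ℝ) ^ 2 ≤ (Δ : ℝ) ^ 3 := by
      have h2 : Δ ^ 2 ≤ Δ ^ 3 := by
        rcases Nat.eq_zero_or_pos Δ with h3 | h3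
        · rw [h3]; norm_num
        · exact Nat.pow_le_pow_right h3 (by norm_num)
      exact_mod_cast h2
    linarith
  obtain ⟨μ0, hμ1, hμ2, hde⟩ := deact κ Λ hΛ0 hκ
  obtain ⟨t, ht⟩ := labels (C7_phi E) (ms E) Δ R κ Λ μ0 hφ0 hφκ hΛ0 hΛκ hmsnn
    (fun y => by
      by_cases h : dY E y = 0
      · rw [hmsz y h]; simp
      · have h1 := (hm y h).2
        have h2 : (R : ℝ) * (μ0 * ms E y) ≤ R * (2 * ms E y) := by
          apply mul_le_mul_of_nonneg_left _ (Nat.cast_nonneg R)
          exact mul_le_mul_of_nonneg_right hμ2 (hmsnn y)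
        linarith)
    (by linarith) hμ2 hpφ hdx hdy hRΔ hΛ
  -- the blocks
  have hblk : ∀ j : Fin R, ∃ (a' : Finset Y) (H : Finset (X × Y)),
      (∀ y ∈ a', t y = some j) ∧ H ⊆ E.filter (fun e => e.2 ∈ a') ∧ (∀ x, dX H x = q) ∧
      ∀ y ∈ a', q - s ≤ dY H y ∧ dY H y ≤ q := by
    intro j
    set a : Finset Y := (univ.filter (fun y => t y = some j)).filter (fun y => dY E y ≠ 0) with ha
    have h1a : ∀ y ∈ a, ∑ x, C7_phi E y x = 1 := by
      intro y hya
      rw [ha, Finset.mem_filter] at hya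
      exact hφ1 y hya.2
    obtain ⟨a', ha', hU⟩ := hde X Y (C7_phi E) hφ0 hφκ a h1a Δ
      (fun x => le_trans (Finset.card_le_card (by
        intro y hy'
        simp only [Finset.mem_filter, Finset.mem_univ, true_and] at hy' ⊢
        exact hy'.2)) (hdx x))
      (fun y _ => hdy y) hΛ2
      (fun x => by
        have h2 : S (C7_phi E) a x = S (C7_phi E) (univ.filter (fun y => t y = some j)) x := by
          unfold S
          rw [ha]
          apply Finset.sum_filter_of_ne
          intro y _ h3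
          exact C7_posY E x y (hφE x y h3)
        rw [h2]
        exact ht x j)
    obtain ⟨H, hH, hHx, hHy⟩ := cut (C7_phi E) hφ0 E hφE a' (fun y hya => h1a y (ha' hya)) κ hφκ
      (1600 * (Λ / κ)) (by positivity) q s hq
      (by
        have h2 : 2 * (1600 * (Λ / κ)) * (q : ℝ) = 1600 * Λ * (2 * q / κ) := by ring
        rw [h2]
        have h3 : 2 * (q : ℝ) / κ ≤ 1 := by rw [div_le_one hκ0]; exact hq
        calc 1600 * Λ * (2 * q / κ) ≤ 1600 * Λ * 1 :=
              mul_le_mul_of_nonneg_left h3 (by positivity)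
          _ ≤ s := by linarith)
      hU
    refine ⟨a', H, ?_, hH, hHx, hHy⟩
    intro y hya
    have h2 := ha' hya
    rw [ha, Finset.mem_filter, Finset.mem_filter] at h2
    exact h2.1.2
  choose a' H ha' hHE hHx hHy using hblk
  have hlab : ∀ j, ∀ e ∈ H j, t e.2 = some j := by
    intro j e he
    have h1 := hHE j he
    rw [Finset.mem_filter] at h1
    exact ha' j _ h1.2
  refine ⟨univ.biUnion H, t, ?_, ?_, ?_, ?_⟩
  · intro e he
    rw [Finset.mem_biUnion] at he
    obtain ⟨j, -, he⟩ := he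
    exact (Finset.mem_filter.1 (hHE j he)).1
  · intro e he
    rw [Finset.mem_biUnion] at he
    obtain ⟨j, -, he⟩ := he
    rw [hlab j e he]
    simp
  · intro x j
    have h1 : (univ.biUnion H).filter (fun e => e.1 = x ∧ t e.2 = some j) =
        (H j).filter (fun e => e.1 = x) := by
      ext e
      simp only [Finset.mem_filter, Finset.mem_biUnion, Finset.mem_univ, true_and]
      constructor
      · rintro ⟨⟨i, hi⟩, h2, h3⟩
        have h4 := hlab i e hi
        rw [h3] at h4
        have h5 : j = i := Option.some.inj h4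
        rw [h5]
        exact ⟨hi, h2⟩
      · rintro ⟨h2, h3⟩
        exact ⟨⟨j, h2⟩, h3, hlab j e h2⟩
    rw [h1]
    exact hHx j x
  · intro y
    rcases hty : t y with _ | j
    · left
      unfold dY
      rw [Finset.card_eq_zero, Finset.filter_eq_empty_iff]
      intro e he h2
      rw [Finset.mem_biUnion] at he
      obtain ⟨j, -, he⟩ := he
      have h3 := hlab j e he
      rw [h2, hty] at h3
      exact absurd h3 (by simp)
    · have h1 : dY (univ.biUnion H) y = dY (H j) y := by
        unfold dY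
        congr 1
        ext e
        simp only [Finset.mem_filter, Finset.mem_biUnion, Finset.mem_univ, true_and]
        constructor
        · rintro ⟨⟨i, hi⟩, h2⟩
          have h4 := hlab i e hi
          rw [h2, hty] at h4
          have h5 : j = i := Option.some.inj h4
          rw [h5]
          exact ⟨hi, h2⟩
        · rintro ⟨h2, h3⟩
          exact ⟨⟨j, h2⟩, h3⟩
      rw [h1]
      by_cases h2 : y ∈ a' j
      · right
        exact hHy j y h2
      · left
        unfold dY
        rw [Finset.card_eq_zero, Finset.filter_eq_empty_iff]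
        intro e he h3
        have h4 := (Finset.mem_filter.1 (hHE j he)).2
        rw [h3] at h4
        exact h2 h4

end block

end Pool.Agent.helper87.PI
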